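import Pool.Agent.Helper6.CS.Goals2

/-!
# Project CS, packet CS-COMP
-/

set_option autoImplicit false

namespace Pool.Agent.Helper13.CS

open Pool.Agent.Helper6.CS

variable {M : Type} [World M]

set_option synthInstance.maxSize 1000000000 in
theorem len_inst (a : M) (W : M → M) [IFn M W] (v : Wd M) :
    (inst a W v).len = fo a W v.len := by
  unfold inst
  rw [Wd.len_of]

open Classical in
set_option synthInstance.maxSize 1000000000 in
theorem get_inst (a : M) (W : M → M) [IFn M W] (v : Wd M) {p : M} (hp : p < fo a W v.len) :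
    (inst a W v).get p = if W p < a then W p else v.get (W p - a) := by
  unfold inst
  rw [Wd.get_of_lt _ _ hp]

theorem cmp_lt {a : M} {W U : M → M} {p : M} (h : W p < a) : cmp a W U p = W p := by
  unfold Pool.Agent.Helper6.CS.cmp
  rw [if_pos h]

theorem cmp_add {a : M} {W U : M → M} {p m : M} (h : W p = a + m) : cmp a W U p = U m := by
  unfold Pool.Agent.Helper6.CS.cmp
  rw [if_neg (not_lt.2 (h ▸ le_add_of_nonneg_right (World.zero_le' m))), h, add_tsub_cancel_left]

set_option synthInstance.maxSize 1000000000 in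
/-- **COMP**. -/
theorem t_COMP (hOWL : G_OWL) : G_COMP := by
  intro M _ a W U iW iU hW hU
  obtain ⟨w1, w2, w3, w4⟩ := hOWL M a W iW hW
  obtain ⟨u1, u2, u3, u4⟩ := hOWL M a U iU hU
  have c1 : ∀ i, cmp a W U (fo a W (fo a U i)) = a + i := fun i => by
    rw [cmp_add (w1 (fo a U i)), u1]
  have c2 : ∀ i p, p < fo a W (fo a U i) → cmp a W U p < a + i := fun i p hp => by
    have h1 := w2 _ p hp
    rcases Wd.lt_cases h1 with h2 | ⟨m, hm, h2⟩
    · rw [cmp_lt h2]
      exact lt_of_lt_of_le h2 (le_add_of_nonneg_right (World.zero_le' i))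
    · rw [cmp_add h2]
      exact u2 i m hm
  have c3 : ∀ i, fo a (cmp a W U) i = fo a W (fo a U i) := fun i => by
    refine le_antisymm ?_ (not_lt.1 fun h => ?_)
    · unfold fo
      exact lst_le (P := fun p => cmp a W U p = a + i) (c1 i)
    · have h1 : cmp a W U (fo a (cmp a W U) i) = a + i := by
        unfold fo
        exact lst_spec (P := fun p => cmp a W U p = a + i) ⟨_, c1 i⟩
      exact absurd h1 (c2 i _ h).ne
  refine ⟨⟨fun i => ⟨_, c1 i⟩, fun i p hp => ⟨fo a W (fo a U i), ?_, c1 i⟩⟩, fun v => ?_⟩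
  · have h1 : fo a W (fo a U i) < fo a W (fo a U (i + 1)) :=
      w3 _ _ (u3 _ _ ((World.lt_succ _ _).2 le_rfl))
    refine lt_of_lt_of_le h1 (not_lt.1 fun h => ?_)
    exact absurd hp (c2 _ p h).ne
  · have h1 : (inst a (cmp a W U) v).len = fo a W (fo a U v.len) := by
      rw [len_inst, c3]
    refine Wd.ext' (by rw [h1, len_inst, len_inst]) fun p hp => ?_
    rw [h1] at hp
    rw [get_inst _ _ _ (by rwa [c3]), get_inst _ _ _ (by rwa [len_inst])]
    have h2 := w2 _ p hp
    rcases Wd.lt_cases h2 with h3 | ⟨m, hm, h3⟩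
    · rw [cmp_lt h3]
      simp only [if_pos h3]
    · have h4 : ¬ W p < a := not_lt.2 (h3 ▸ le_add_of_nonneg_right (World.zero_le' m))
      rw [cmp_add h3, if_neg h4, h3, add_tsub_cancel_left, get_inst _ _ _ hm]

end Pool.Agent.Helper13.CS
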