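import Pool.Agent.Helper75.CS.Goals

/-!
Packet CS-CSGROW: the growth rate from one good value.
-/

set_option autoImplicit false

namespace Pool.Agent.Helper13.CS

open Pool.Agent.Helper75.CS

theorem csgrow : S_CSGROW := by
  intro f D s l hD hl hf hs hls
  have hlD : 0 < l ^ D := by positivity
  have hq : 1 < (s : ℝ) / l ^ D := by
    rw [lt_div_iff₀ hlD]
    linarith
  obtain ⟨k0, hk0⟩ := pow_unbounded_of_one_lt (l ^ D) hq
  refine ⟨k0 * D, fun r hr => ?_⟩
  set k := r / D with hk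
  have hkk : k0 ≤ k := by
    rw [hk, Nat.le_div_iff_mul_le (by omega)]
    exact hr
  have h1 : k * D ≤ r := Nat.div_mul_le_self r D
  have h2 : r ≤ D * (k + 1) := by
    have := Nat.lt_mul_div_succ r (show 0 < D by omega)
    exact this.le
  have h3 : ((s : ℝ)) ^ k ≤ (f r : ℝ) := by
    have h4 : s ^ k ≤ f r := (hs k).trans (hf h1)
    exact_mod_cast h4
  have h5 : l ^ D ≤ ((s : ℝ) / l ^ D) ^ k :=
    hk0.le.trans (pow_le_pow_right₀ hq.le hkk)
  calc l ^ r ≤ l ^ (D * (k + 1)) := pow_le_pow_right₀ hl h2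
    _ = (l ^ D) ^ k * l ^ D := by rw [pow_mul, pow_succ]
    _ ≤ (l ^ D) ^ k * ((s : ℝ) / l ^ D) ^ k :=
        mul_le_mul_of_nonneg_left h5 (pow_nonneg hlD.le _)
    _ = (s : ℝ) ^ k := by
        rw [← mul_pow, mul_div_cancel₀ _ hlD.ne']
    _ ≤ f r := h3

end Pool.Agent.Helper13.CS
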