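import Pool.Agent.Helper65.CS.Goals2

/-!
# Packet CS-NRM: normalization of decision lists
-/

namespace Pool.Agent.Helper13.CS

open Pool.Agent.Helper81.CC Pool.Agent.Helper78.DT Pool.Agent.Helper65.CS
open scoped Classical

/-- The value of the variable with the number `v`. -/
def vlu {n : ℕ} (x : Fin n → Bool) (v : ℕ) : Bool := if h : v < n then x ⟨v, h⟩ else false

/-- `x` satisfies all literals of the list. -/
def satL {n : ℕ} (x : Fin n → Bool) (T : List (ℕ × Bool)) : Prop := ∀ p ∈ T, vlu x p.1 = p.2

theorem val_pos {n : ℕ} {x : Fin n → Bool} {e : List (ℕ × Bool) × Bool} {F : DList}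
    (h : satL x e.1) : DList.val x (e :: F) = e.2 := by
  rw [DList.val]
  exact if_pos h

theorem val_neg {n : ℕ} {x : Fin n → Bool} {e : List (ℕ × Bool) × Bool} {F : DList}
    (h : ¬ satL x e.1) : DList.val x (e :: F) = DList.val x F := by
  rw [DList.val]
  exact if_neg h

theorem mem_cln {n : ℕ} {T : List (ℕ × Bool)} {p : ℕ × Bool} :
    p ∈ cln n T ↔ p ∈ T ∧ (p.1 < n ∨ p.2 = true) := by
  simp [cln]

theorem sat_cln {n : ℕ} (x : Fin n → Bool) (T : List (ℕ × Bool)) :
    satL x (cln n T) ↔ satL x T := by
  constructor
  · intro h p hp
    by_cases hc : p.1 < n ∨ p.2 = true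
    · exact h p (mem_cln.mpr ⟨hp, hc⟩)
    · push Not at hc
      have h2 : p.2 = false := by simpa using hc.2
      rw [h2, vlu, dif_neg (by omega)]
  · intro h p hp
    exact h p (mem_cln.mp hp).1

/-- The first test. -/
def tst (n : ℕ) (T : List (ℕ × Bool)) : Prop := ∀ p ∈ cln n T, p.1 < n ∧ (p.1, !p.2) ∉ cln n T

theorem not_sat_of_not_tst {n : ℕ} (x : Fin n → Bool) {T : List (ℕ × Bool)} (h : ¬ tst n T) :
    ¬ satL x T := by
  rw [← sat_cln]
  intro hs
  apply h
  intro p hp
  constructor
  · by_contra hn
    have h2 : p.2 = true := by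
      rcases (mem_cln.mp hp).2 with h3 | h3
      · exact absurd h3 hn
      · exact h3
    have h4 := hs p hp
    rw [h2, vlu, dif_neg hn] at h4
    exact absurd h4 (by decide)
  · intro hq
    have h4 := hs p hp
    have h5 := hs _ hq
    simp only at h5
    rw [h4] at h5
    revert h5
    cases p.2 <;> decide

/-- The function whose `filterMap` is the normalization. -/
def nf (n W : ℕ) (e : List (ℕ × Bool) × Bool) : Option (List (ℕ × Bool) × Bool) :=
  if (cln n e.1).all (fun p => decide (p.1 < n) && !(cln n e.1).contains (p.1, !p.2)) then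
      (if (cln n e.1).length ≤ W then some (cln n e.1, e.2)
        else if e.2 then none else some ((cln n e.1).take W, false))
    else none

theorem nrm_eq (n W : ℕ) (F : DList) : nrm n W F = F.filterMap (nf n W) := rfl

theorem tst_iff (n : ℕ) (T : List (ℕ × Bool)) :
    ((cln n T).all (fun p => decide (p.1 < n) && !(cln n T).contains (p.1, !p.2))) = true ↔
      tst n T := by
  simp [tst]

theorem nf_bad {n W : ℕ} {e : List (ℕ × Bool) × Bool} (h : ¬ tst n e.1) : nf n W e = none := by
  rw [nf, if_neg]
  rw [tst_iff]
  exact h

theorem nf_short {n W : ℕ} {e : List (ℕ × Bool) × Bool} (h : tst n e.1)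
    (h2 : (cln n e.1).length ≤ W) : nf n W e = some (cln n e.1, e.2) := by
  rw [nf, if_pos ((tst_iff n e.1).mpr h), if_pos h2]

theorem nf_long_true {n W : ℕ} {e : List (ℕ × Bool) × Bool} (h : tst n e.1)
    (h2 : ¬ (cln n e.1).length ≤ W) (h3 : e.2 = true) : nf n W e = none := by
  rw [nf, if_pos ((tst_iff n e.1).mpr h), if_neg h2, if_pos h3]

theorem nf_long_false {n W : ℕ} {e : List (ℕ × Bool) × Bool} (h : tst n e.1)
    (h2 : ¬ (cln n e.1).length ≤ W) (h3 : ¬ e.2 = true) :
    nf n W e = some ((cln n e.1).take W, false) := by
  rw [nf, if_pos ((tst_iff n e.1).mpr h), if_neg h2, if_neg h3]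

theorem nf_nrm (n W : ℕ) (F : DList) : NF n W (nrm n W F) := by
  intro e' he'
  rw [nrm_eq, List.mem_filterMap] at he'
  obtain ⟨e, _, hf⟩ := he'
  by_cases ht : tst n e.1
  · by_cases hl : (cln n e.1).length ≤ W
    · rw [nf_short ht hl] at hf
      obtain rfl := Option.some.inj hf
      exact ⟨List.nodup_dedup _, hl, ht⟩
    · by_cases h3 : e.2 = true
      · rw [nf_long_true ht hl h3] at hf
        exact absurd hf (by simp)
      · rw [nf_long_false ht hl h3] at hf
        obtain rfl := Option.some.inj hf
        refine ⟨(List.nodup_dedup _).sublist (List.take_sublist _ _), List.length_take_le _ _, ?_⟩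
        intro p hp
        have hp' : p ∈ cln n e.1 := List.mem_of_mem_take hp
        exact ⟨(ht p hp').1, fun hq => (ht p hp').2 (List.mem_of_mem_take hq)⟩
  · rw [nf_bad ht] at hf
    exact absurd hf (by simp)

theorem sat_take {n : ℕ} {x : Fin n → Bool} {T : List (ℕ × Bool)} (W : ℕ) (h : satL x T) :
    satL x (T.take W) := fun p hp => h p (List.mem_of_mem_take hp)

theorem val_mono (n W : ℕ) (x : Fin n → Bool) : ∀ F : DList,
    DList.val x (nrm n W F) = true → DList.val x F = true := by
  intro F
  induction F with
  | nil => intro h; exact h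
  | cons e F ih =>
    intro h
    rw [nrm_eq, List.filterMap_cons] at h
    by_cases ht : tst n e.1
    · by_cases hl : (cln n e.1).length ≤ W
      · rw [nf_short ht hl] at h
        by_cases hs : satL x e.1
        · have h1 : DList.val x ((cln n e.1, e.2) :: F.filterMap (nf n W)) = e.2 :=
            val_pos ((sat_cln x e.1).mpr hs)
          rw [val_pos hs, ← h1]
          exact h
        · rw [val_neg hs]
          have h1 : DList.val x ((cln n e.1, e.2) :: F.filterMap (nf n W)) =
              DList.val x (F.filterMap (nf n W)) :=
            val_neg (fun h => hs ((sat_cln x e.1).mp h))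
          exact ih (h1 ▸ h)
      · by_cases h3 : e.2 = true
        · rw [nf_long_true ht hl h3] at h
          by_cases hs : satL x e.1
          · rw [val_pos hs]; exact h3
          · rw [val_neg hs]; exact ih h
        · rw [nf_long_false ht hl h3] at h
          by_cases hs : satL x ((cln n e.1).take W)
          · have h1 : DList.val x (((cln n e.1).take W, false) :: F.filterMap (nf n W)) = false :=
              val_pos hs
            have h2 : DList.val x (((cln n e.1).take W, false) :: F.filterMap (nf n W)) = true := h
            rw [h1] at h2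
            exact absurd h2 (by decide)
          · have h1 : DList.val x (((cln n e.1).take W, false) :: F.filterMap (nf n W)) =
                DList.val x (F.filterMap (nf n W)) := val_neg hs
            have hs2 : ¬ satL x e.1 := fun h4 => hs (sat_take W ((sat_cln x e.1).mpr h4))
            rw [val_neg hs2]
            exact ih (h1 ▸ h)
    · rw [nf_bad ht] at h
      rw [val_neg (not_sat_of_not_tst x ht)]
      exact ih h

/-- The entry `e` is long and `x` satisfies its first `W` literals. -/
def bad (n W : ℕ) (x : Fin n → Bool) (e : List (ℕ × Bool) × Bool) : Prop :=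
  tst n e.1 ∧ W < (cln n e.1).length ∧ satL x ((cln n e.1).take W)

theorem val_or (n W : ℕ) (x : Fin n → Bool) : ∀ F : DList,
    DList.val x F = true → DList.val x (nrm n W F) = true ∨ ∃ e ∈ F, bad n W x e := by
  intro F
  induction F with
  | nil => intro h; exact Or.inl h
  | cons e F ih =>
    intro h
    have lift : (∃ e' ∈ F, bad n W x e') → ∃ e' ∈ e :: F, bad n W x e' := by
      rintro ⟨e', he', hb⟩
      exact ⟨e', List.mem_cons_of_mem _ he', hb⟩
    rw [nrm_eq, List.filterMap_cons]
    by_cases ht : tst n e.1
    · by_cases hl : (cln n e.1).length ≤ W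
      · rw [nf_short ht hl]
        by_cases hs : satL x e.1
        · left
          have h1 : DList.val x ((cln n e.1, e.2) :: F.filterMap (nf n W)) = e.2 :=
            val_pos ((sat_cln x e.1).mpr hs)
          rw [val_pos hs] at h
          rw [← h]
          exact h1
        · rw [val_neg hs] at h
          have h1 : DList.val x ((cln n e.1, e.2) :: F.filterMap (nf n W)) =
              DList.val x (F.filterMap (nf n W)) :=
            val_neg (fun h => hs ((sat_cln x e.1).mp h))
          rcases ih h with h2 | h2
          · left
            exact h1.trans h2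
          · exact Or.inr (lift h2)
      · by_cases hb : satL x ((cln n e.1).take W)
        · exact Or.inr ⟨e, List.mem_cons_self, ht, not_le.mp hl, hb⟩
        · have hs2 : ¬ satL x e.1 := fun h4 => hb (sat_take W ((sat_cln x e.1).mpr h4))
          rw [val_neg hs2] at h
          by_cases h3 : e.2 = true
          · rw [nf_long_true ht hl h3]
            rcases ih h with h2 | h2
            · exact Or.inl h2
            · exact Or.inr (lift h2)
          · rw [nf_long_false ht hl h3]
            have h1 : DList.val x (((cln n e.1).take W, false) :: F.filterMap (nf n W)) =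
                DList.val x (F.filterMap (nf n W)) := val_neg hb
            rcases ih h with h2 | h2
            · left
              exact h1.trans h2
            · exact Or.inr (lift h2)
    · rw [nf_bad ht]
      rw [val_neg (not_sat_of_not_tst x ht)] at h
      rcases ih h with h2 | h2
      · exact Or.inl h2
      · exact Or.inr (lift h2)

/-- Changing one value. -/
def flipE {n : ℕ} (v : Fin n) : (Fin n → Bool) ≃ (Fin n → Bool) where
  toFun x := Function.update x v (!x v)
  invFun x := Function.update x v (!x v)
  left_inv x := by
    funext w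
    by_cases h : w = v
    · subst h; simp
    · simp [Function.update_of_ne h]
  right_inv x := by
    funext w
    by_cases h : w = v
    · subst h; simp
    · simp [Function.update_of_ne h]

theorem pr_sat_le {n : ℕ} : ∀ T : List (ℕ × Bool), (T.map Prod.fst).Nodup → (∀ p ∈ T, p.1 < n) →
    pr (fun x : Fin n → Bool => satL x T) ≤ (1 / 2) ^ T.length := by
  intro T
  induction T with
  | nil =>
    intro _ _
    simpa using pr_le_one _
  | cons p T ih =>
    intro hnd hlt
    rw [List.map_cons, List.nodup_cons] at hnd
    have hT := ih hnd.2 (fun q hq => hlt q (List.mem_cons_of_mem _ hq))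
    have hp : p.1 < n := hlt p List.mem_cons_self
    set v : Fin n := ⟨p.1, hp⟩ with hv
    have hvp : ∀ x : Fin n → Bool, vlu x p.1 = x v := fun x => by rw [vlu, dif_pos hp]
    have hinv : ∀ x : Fin n → Bool, satL (flipE v x) T ↔ satL x T := by
      intro x
      have hq : ∀ q ∈ T, vlu (flipE v x) q.1 = vlu x q.1 := by
        intro q hq
        have hqn : q.1 < n := hlt q (List.mem_cons_of_mem _ hq)
        have hne : (⟨q.1, hqn⟩ : Fin n) ≠ v := by
          intro h
          apply hnd.1
          rw [List.mem_map]
          exact ⟨q, hq, by simpa [hv] using congrArg Fin.val h⟩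
        rw [vlu, vlu, dif_pos hqn, dif_pos hqn]
        exact Function.update_of_ne hne _ _
      constructor
      · intro h q hq'
        rw [← hq q hq']; exact h q hq'
      · intro h q hq'
        rw [hq q hq']; exact h q hq'
    have h1 : pr (fun x : Fin n → Bool => satL x (p :: T)) =
        pr (fun x : Fin n → Bool => x v = p.2 ∧ satL x T) := by
      apply pr_congr
      intro x
      constructor
      · intro h
        exact ⟨(hvp x) ▸ h p List.mem_cons_self, fun q hq => h q (List.mem_cons_of_mem _ hq)⟩
      · rintro ⟨h2, h3⟩ q hq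
        rcases List.mem_cons.mp hq with rfl | hq
        · rw [hvp]; exact h2
        · exact h3 q hq
    have h2 : pr (fun x : Fin n → Bool => x v = p.2 ∧ satL x T) =
        pr (fun x : Fin n → Bool => x v = !p.2 ∧ satL x T) := by
      rw [← pr_equiv (flipE v) (fun x : Fin n → Bool => x v = p.2 ∧ satL x T)]
      apply pr_congr
      intro x
      rw [hinv]
      have h3 : flipE v x v = !x v := by simp [flipE]
      rw [h3]
      constructor
      · rintro ⟨h4, h5⟩
        exact ⟨by rw [← h4]; simp, h5⟩
      · rintro ⟨h4, h5⟩
        exact ⟨by rw [h4]; simp, h5⟩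
    have h3 : pr (fun x : Fin n → Bool => x v = p.2 ∧ satL x T) +
        pr (fun x : Fin n → Bool => x v = !p.2 ∧ satL x T) ≤
        pr (fun x : Fin n → Bool => satL x T) := by
      rw [pr_eq_av, pr_eq_av, pr_eq_av, ← av_add]
      apply av_mono
      intro x
      by_cases hs : satL x T
      · by_cases hx : x v = p.2
        · have : ¬ (x v = !p.2) := by rw [hx]; cases p.2 <;> decide
          simp [hs, hx]
        · simp only [hs, hx, and_true, false_and, if_false, zero_add, if_true]
          split_ifs <;> norm_num
      · simp [hs]
    rw [h1, List.length_cons, pow_succ]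
    rw [← h2] at h3
    linarith

theorem frac_eq (n : ℕ) (F : DList) :
    frac n F = pr (fun x : Fin n → Bool => DList.val x F = true) := by
  rw [frac, pr_eq_card]
  simp

theorem pr_list_le {n : ℕ} {E : List (ℕ × Bool) × Bool → (Fin n → Bool) → Prop} {c : ℝ}
    (h : ∀ e, pr (E e) ≤ c) : ∀ F : DList,
    pr (fun x : Fin n → Bool => ∃ e ∈ F, E e x) ≤ F.length * c := by
  intro F
  induction F with
  | nil => simp [pr_eq_av, av_const]
  | cons e F ih =>
    have h1 : pr (fun x : Fin n → Bool => ∃ e' ∈ e :: F, E e' x) ≤
        pr (E e) + pr (fun x : Fin n → Bool => ∃ e' ∈ F, E e' x) := by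
      apply pr_le_add_of_imp
      rintro x ⟨e', he', hE⟩
      rcases List.mem_cons.mp he' with rfl | he'
      · exact Or.inl hE
      · exact Or.inr ⟨e', he', hE⟩
    have h2 := h e
    rw [List.length_cons]
    push_cast
    linarith

theorem pr_bad_le (n W : ℕ) (e : List (ℕ × Bool) × Bool) :
    pr (fun x : Fin n → Bool => bad n W x e) ≤ 1 / 2 ^ W := by
  by_cases ht : tst n e.1 ∧ W < (cln n e.1).length
  · obtain ⟨ht, hl⟩ := ht
    have hlen : ((cln n e.1).take W).length = W := by
      rw [List.length_take]; omega
    have h1 : pr (fun x : Fin n → Bool => bad n W x e) ≤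
        pr (fun x : Fin n → Bool => satL x ((cln n e.1).take W)) :=
      pr_mono fun x hx => hx.2.2
    refine h1.trans ?_
    have h2 := pr_sat_le (n := n) ((cln n e.1).take W) ?_ ?_
    · rw [hlen] at h2
      refine h2.trans (le_of_eq ?_)
      rw [one_div, one_div, inv_pow]
    · apply List.Nodup.map_on
      · intro p hp q hq hpq
        have hp' := List.mem_of_mem_take hp
        have hq' := List.mem_of_mem_take hq
        by_contra hne
        apply (ht p hp').2
        have : (p.1, !p.2) = q := by
          ext
          · exact hpq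
          · have : p.2 ≠ q.2 := fun h => hne (Prod.ext hpq h)
            revert this
            cases p.2 <;> cases q.2 <;> simp
        rw [this]
        exact hq'
      · exact (List.nodup_dedup _).sublist (List.take_sublist _ _)
    · intro p hp
      exact (ht p (List.mem_of_mem_take hp)).1
  · have h0 : pr (fun x : Fin n → Bool => bad n W x e) ≤
        pr (fun _ : Fin n → Bool => False) :=
      pr_mono fun x hx => ht ⟨hx.1, hx.2.1⟩
    refine h0.trans ?_
    have : pr (fun _ : Fin n → Bool => False) = 0 := by simp [pr_eq_av, av_const]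
    rw [this]
    positivity

/-- **Packet CS-NRM.** -/
theorem nrm : NrmStmt := by
  intro n W F
  refine ⟨nf_nrm n W F, ?_, fun x => val_mono n W x F, ?_⟩
  · rw [nrm_eq]
    exact List.length_filterMap_le _ _
  · rw [frac_eq, frac_eq]
    have h1 : pr (fun x : Fin n → Bool => DList.val x F = true) ≤
        pr (fun x : Fin n → Bool => DList.val x (Pool.Agent.Helper65.CS.nrm n W F) = true) +
          pr (fun x : Fin n → Bool => ∃ e ∈ F, bad n W x e) :=
      pr_le_add_of_imp fun x hx => val_or n W x F hx
    have h2 := pr_list_le (n := n) (E := fun e x => bad n W x e) (c := 1 / 2 ^ W)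
      (pr_bad_le n W) F
    have h3 : (F.length : ℝ) * (1 / 2 ^ W) = (F.length : ℝ) / 2 ^ W := by ring
    linarith

end Pool.Agent.Helper13.CS
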